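import Pool.Agent.Lib.MP_d10e50_nt.K.Main

set_option autoImplicit false

namespace Pool.Agent.Results.MP_d10e50_nt.AllFields

open Pool.Agent.Lib.MP_d10e50_nt.K in
/-- Over every field `K` and for every weight `a` that is nonzero exactly at the primes, the
interval `(n, 3 n log n log log n]` contains an even and an odd `m` for which the `m × m` matrix
with entries `a (i + j)`, `1 ≤ i, j ≤ m`, is nonsingular; the threshold for `n` is absolute. -/
theorem result : ∃ n₀ : ℕ, ∀ (K : Type) [Field K] (a : ℕ → K), (∀ k, a k ≠ 0 ↔ k.Prime) →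
    ∀ n ≥ n₀, ∀ r < 2, ∃ m : ℕ, m % 2 = r ∧ n < m ∧
      (m : ℝ) ≤ 3 * n * Real.log n * Real.log (Real.log n) ∧
      (Matrix.of fun i j : Fin m => a (((i : ℕ) + 1) + ((j : ℕ) + 1))).det ≠ 0 := by
  obtain ⟨n₀, h⟩ := Filter.eventually_atTop.1 numeric
  refine ⟨n₀, fun K _ a ha n hn r hr => ?_⟩
  obtain ⟨y, h1, h2, h3⟩ := h n hn
  let f := algebraMap K (AlgebraicClosure K)
  have hb : ∀ k, f (a k) ≠ 0 ↔ k.Prime := fun k => by rw [map_ne_zero, ha]
  have key : ∀ m, ND (fun k => f (a (k + 2))) m →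
      (Matrix.of fun i j : Fin m => a (((i : ℕ) + 1) + ((j : ℕ) + 1))).det ≠ 0 := by
    intro m hm h0
    apply hm.det_ne
    have e : (Matrix.of fun i j : Fin m => f (a (i + j + 2))) =
        (Matrix.of fun i j : Fin m => a (((i : ℕ) + 1) + ((j : ℕ) + 1))).map f := by
      ext i j
      simp only [Matrix.of_apply, Matrix.map_apply,
        show (i : ℕ) + 1 + (j + 1) = i + j + 2 by omega]
    rw [e, ← RingHom.mapMatrix_apply, ← RingHom.map_det, h0, map_zero]
  obtain rfl | rfl : r = 0 ∨ r = 1 := by omega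
  · obtain ⟨t, h4, h5, h6⟩ := exists_ND hb 3 (Or.inl rfl) _ y h1 h2
    exact ⟨2 * t, by omega, by omega, le_trans (Nat.cast_le.2 (by omega)) h3,
      key _ (ND_even hb h6)⟩
  · obtain ⟨t, h4, h5, h6⟩ := exists_ND hb 5 (Or.inr rfl) _ y h1 h2
    exact ⟨2 * t + 1, by omega, by omega, le_trans (Nat.cast_le.2 (by omega)) h3,
      key _ (ND_odd hb h6)⟩

end Pool.Agent.Results.MP_d10e50_nt.AllFields
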