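import Pool.Agent.Lib.MP_d10e50_nt.Main

set_option autoImplicit false

namespace Pool.Agent.Results.MP_d10e50_nt.GapBound

/-- The `n × n` matrix whose `(i, j)` entry (`1 ≤ i, j ≤ n`) is `1` if `i + j` is prime and `0`
otherwise. -/
def M (n : ℕ) : Matrix (Fin n) (Fin n) ℤ :=
  Matrix.of fun i j => if Nat.Prime (((i : ℕ) + 1) + ((j : ℕ) + 1)) then 1 else 0

open Pool.Agent.Lib.MP_d10e50_nt in
theorem det_ne {m : ℕ} (h : ND indw m) : (M m).det ≠ 0 := by
  intro h0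
  apply h.det_ne
  have e : (Matrix.of fun i j : Fin m => indw (i + j)) = (M m).map (Int.castRingHom ℚ) := by
    ext i j
    simp only [M, indw, Matrix.of_apply, Matrix.map_apply,
      show (i : ℕ) + 1 + (j + 1) = i + j + 2 by omega]
    split_ifs <;> simp
  rw [e, ← RingHom.mapMatrix_apply, ← RingHom.map_det, h0, map_zero]

open Pool.Agent.Lib.MP_d10e50_nt in
/-- For all large `n` the interval `(n, 3 n log n]` contains an even and an odd `m` with
`det M_m ≠ 0`. -/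
theorem result : ∃ n₀ : ℕ, ∀ n ≥ n₀, ∀ r < 2, ∃ m : ℕ, m % 2 = r ∧ n < m ∧
    (m : ℝ) ≤ 3 * n * Real.log n ∧ (M m).det ≠ 0 := by
  obtain ⟨n₀, h⟩ := Filter.eventually_atTop.1 numeric
  refine ⟨n₀, fun n hn r hr => ?_⟩
  obtain ⟨y, h1, h2, h3⟩ := h n hn
  obtain rfl | rfl : r = 0 ∨ r = 1 := by omega
  · obtain ⟨t, h4, h5, h6⟩ := exists_ND 3 (Or.inl rfl) _ y h1 h2
    exact ⟨2 * t, by omega, by omega, le_trans (Nat.cast_le.2 (by omega)) h3, det_ne (ND_even h6)⟩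
  · obtain ⟨t, h4, h5, h6⟩ := exists_ND 5 (Or.inr rfl) _ y h1 h2
    exact ⟨2 * t + 1, by omega, by omega, le_trans (Nat.cast_le.2 (by omega)) h3,
      det_ne (ND_odd h6)⟩

end Pool.Agent.Results.MP_d10e50_nt.GapBound
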